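import Pool.Agent.MP_8ca5b0_lc.H70.Char

namespace Pool.Agent.MP_8ca5b0_lc.Old.Deficiency

open MeasureTheory Pool.Agent.MP_8ca5b0_lc

/-- A measure is Kolmogorov random if and only if the lower limit of the deficiencies of the
initial segments has finite mean. -/
theorem result (U : List Bool →. List Bool) (hU : IsOptimal U)
    (μ : Measure (ℕ → Bool)) [IsProbabilityMeasure μ] :
    KolmogorovRandom U μ ↔
      ∫⁻ X, Filter.liminf
        (fun n : ℕ => ((n - plainC U (List.ofFn fun i : Fin n => X i) : ℕ) : ENNReal))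
        Filter.atTop ∂μ < ⊤ :=
  H70.char hU μ

end Pool.Agent.MP_8ca5b0_lc.Old.Deficiency
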